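import Mathlib

set_option autoImplicit false

namespace Pool.Agent.Helper28.Geo

/-- An algebraic signature: function symbols with finite arities (constants have arity `0`). -/
structure Sig where
  Op : Type
  ar : Op → ℕ

/-- Terms in `n` free variables. -/
inductive Term (S : Sig) (n : ℕ) : Type
  | var : Fin n → Term S n
  | app : (f : S.Op) → (Fin (S.ar f) → Term S n) → Term S n

/-- Substitution of terms for the variables of a term. -/
def Term.subst {S : Sig} {n m : ℕ} (s : Fin n → Term S m) : Term S n → Term S m
  | .var i => s i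
  | .app f a => .app f (fun j => (a j).subst s)

/-- First-order formulas with equality in `n` free variables; `sup` is a disjunction indexed by an
arbitrary small set (so `sup Bool` is binary disjunction). A quantifier binds variable `0`. -/
inductive Form (S : Sig) : ℕ → Type 1
  | eq {n : ℕ} : Term S n → Term S n → Form S n
  | top {n : ℕ} : Form S n
  | bot {n : ℕ} : Form S n
  | and {n : ℕ} : Form S n → Form S n → Form S n
  | imp {n : ℕ} : Form S n → Form S n → Form S n
  | sup {n : ℕ} (I : Type) : (I → Form S n) → Form S n
  | all {n : ℕ} : Form S (n + 1) → Form S n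
  | ex {n : ℕ} : Form S (n + 1) → Form S n

/-- A substitution under a binder. -/
def lift {S : Sig} {n m : ℕ} (s : Fin n → Term S m) : Fin (n + 1) → Term S (m + 1) :=
  Fin.cases (.var 0) (fun i => (s i).subst (fun j => .var j.succ))

/-- Substitution in formulas. -/
def Form.subst {S : Sig} : {n m : ℕ} → (Fin n → Term S m) → Form S n → Form S m
  | _, _, s, .eq a b => .eq (a.subst s) (b.subst s)
  | _, _, _, .top => .top
  | _, _, _, .bot => .bot
  | _, _, s, .and p q => .and (p.subst s) (q.subst s)
  | _, _, s, .imp p q => .imp (p.subst s) (q.subst s)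
  | _, _, s, .sup I p => .sup I (fun i => (p i).subst s)
  | _, _, s, .all p => .all (p.subst (lift s))
  | _, _, s, .ex p => .ex (p.subst (lift s))

/-- Weakening by one fresh variable. -/
def Form.wk {S : Sig} {n : ℕ} (p : Form S n) : Form S (n + 1) :=
  p.subst (fun i => .var i.succ)

/-- Instantiation of variable `0` by a term. -/
def Form.inst {S : Sig} {n : ℕ} (p : Form S (n + 1)) (t : Term S n) : Form S n :=
  p.subst (Fin.cases t .var)

/-- Natural deduction for infinitary intuitionistic first-order logic with equality; in
`Prf Ax G p` with `G : List (Form S n)` the `n` variables are the context (domains may be empty). -/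
inductive Prf {S : Sig} (Ax : Set (Form S 0)) : {n : ℕ} → List (Form S n) → Form S n → Prop
  | ax {n : ℕ} {G : List (Form S n)} {p : Form S 0} : p ∈ Ax → Prf Ax G (p.subst Fin.elim0)
  | hyp {n : ℕ} {G : List (Form S n)} {p : Form S n} : p ∈ G → Prf Ax G p
  | topI {n : ℕ} {G : List (Form S n)} : Prf Ax G .top
  | botE {n : ℕ} {G : List (Form S n)} {p : Form S n} : Prf Ax G .bot → Prf Ax G p
  | andI {n : ℕ} {G : List (Form S n)} {p q : Form S n} :
      Prf Ax G p → Prf Ax G q → Prf Ax G (.and p q)
  | andE1 {n : ℕ} {G : List (Form S n)} {p q : Form S n} : Prf Ax G (.and p q) → Prf Ax G p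
  | andE2 {n : ℕ} {G : List (Form S n)} {p q : Form S n} : Prf Ax G (.and p q) → Prf Ax G q
  | impI {n : ℕ} {G : List (Form S n)} {p q : Form S n} :
      Prf Ax (p :: G) q → Prf Ax G (.imp p q)
  | impE {n : ℕ} {G : List (Form S n)} {p q : Form S n} :
      Prf Ax G (.imp p q) → Prf Ax G p → Prf Ax G q
  | supI {n : ℕ} {G : List (Form S n)} {I : Type} {p : I → Form S n} (i : I) :
      Prf Ax G (p i) → Prf Ax G (.sup I p)
  | supE {n : ℕ} {G : List (Form S n)} {I : Type} {p : I → Form S n} {q : Form S n} :
      Prf Ax G (.sup I p) → (∀ i, Prf Ax (p i :: G) q) → Prf Ax G q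
  | allI {n : ℕ} {G : List (Form S n)} {p : Form S (n + 1)} :
      Prf Ax (G.map Form.wk) p → Prf Ax G (.all p)
  | allE {n : ℕ} {G : List (Form S n)} {p : Form S (n + 1)} (t : Term S n) :
      Prf Ax G (.all p) → Prf Ax G (p.inst t)
  | exI {n : ℕ} {G : List (Form S n)} {p : Form S (n + 1)} (t : Term S n) :
      Prf Ax G (p.inst t) → Prf Ax G (.ex p)
  | exE {n : ℕ} {G : List (Form S n)} {p : Form S (n + 1)} {q : Form S n} :
      Prf Ax G (.ex p) → Prf Ax (p :: G.map Form.wk) q.wk → Prf Ax G q
  | eqI {n : ℕ} {G : List (Form S n)} (t : Term S n) : Prf Ax G (.eq t t)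
  | eqE {n : ℕ} {G : List (Form S n)} {s t : Term S n} (p : Form S (n + 1)) :
      Prf Ax G (.eq s t) → Prf Ax G (p.inst s) → Prf Ax G (p.inst t)

/-- Universal closure. -/
def Form.close {S : Sig} : {n : ℕ} → Form S n → Form S 0
  | 0, p => p
  | _ + 1, p => Form.close (.all p)

/-- Geometric formulas: equations, truth, falsity, conjunction, small disjunctions, existence. -/
def Form.Geometric {S : Sig} : {n : ℕ} → Form S n → Prop
  | _, .eq _ _ => True
  | _, .top => True
  | _, .bot => True
  | _, .and p q => p.Geometric ∧ q.Geometric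
  | _, .imp _ _ => False
  | _, .sup _ p => ∀ i, (p i).Geometric
  | _, .all _ => False
  | _, .ex p => p.Geometric

/-- An algebraic theory is a set of equations between terms. -/
abbrev Theory (S : Sig) : Type := Set ((n : ℕ) × Term S n × Term S n)

/-- The axioms of an algebraic theory: universal closures of its equations. -/
def axioms {S : Sig} (E : Theory S) : Set (Form S 0) :=
  {p | ∃ e ∈ E, p = (Form.eq e.2.1 e.2.2).close}

/-- `a` is redundant for `E`: every geometric implication provable from `E` and `a` is already
provable from `E`. -/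
def Redundant {S : Sig} (E : Theory S) (a : Form S 0) : Prop :=
  ∀ (n : ℕ) (p q : Form S n), p.Geometric → q.Geometric →
    Prf (axioms E ∪ {a}) [] (Form.imp p q).close → Prf (axioms E) [] (Form.imp p q).close

/-- Algebras for a signature. -/
structure Alg (S : Sig) where
  carrier : Type
  op : (f : S.Op) → (Fin (S.ar f) → carrier) → carrier

/-- Evaluation of terms. -/
def Term.eval {S : Sig} {n : ℕ} (A : Alg S) (r : Fin n → A.carrier) : Term S n → A.carrier
  | .var i => r i
  | .app f a => A.op f (fun j => (a j).eval A r)

/-- `A` is a model of the equations `E`. -/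
def IsModel {S : Sig} (E : Theory S) (A : Alg S) : Prop :=
  ∀ e ∈ E, ∀ r : Fin e.1 → A.carrier, e.2.1.eval A r = e.2.2.eval A r

/-- Homomorphisms. -/
structure Hom {S : Sig} (A B : Alg S) where
  toFun : A.carrier → B.carrier
  map_op : ∀ (f : S.Op) (a : Fin (S.ar f) → A.carrier),
    toFun (A.op f a) = B.op f (fun j => toFun (a j))

/-- `A` is a finitely presented model of `E`: generated by finitely many elements `g` subject to
finitely many equations `R`, universally among the models of `E`. -/
def IsFP {S : Sig} (E : Theory S) (A : Alg S) : Prop :=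
  IsModel E A ∧ ∃ (n : ℕ) (R : List (Term S n × Term S n)) (g : Fin n → A.carrier),
    (∀ e ∈ R, e.1.eval A g = e.2.eval A g) ∧
    ∀ B : Alg S, IsModel E B → ∀ b : Fin n → B.carrier,
      (∀ e ∈ R, e.1.eval B b = e.2.eval B b) → ∃! h : Hom A B, ∀ i, h.toFun (g i) = b i

/-- Kripke-Joyal forcing for the generic model of `E`. The classifying topos of an algebraic theory
is the topos of set-valued functors on its finitely presented models, the generic model being the
underlying-set functor; `Forces E A r p` says that `p` holds of `r` at stage `A`. -/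
def Forces {S : Sig} (E : Theory S) : {n : ℕ} → (A : Alg S) → (Fin n → A.carrier) → Form S n → Prop
  | _, A, r, .eq s t => s.eval A r = t.eval A r
  | _, _, _, .top => True
  | _, _, _, .bot => False
  | _, A, r, .and p q => Forces E A r p ∧ Forces E A r q
  | _, A, r, .imp p q => ∀ B : Alg S, IsFP E B → ∀ h : Hom A B,
      Forces E B (h.toFun ∘ r) p → Forces E B (h.toFun ∘ r) q
  | _, A, r, .sup _ p => ∃ i, Forces E A r (p i)
  | _, A, r, .all p => ∀ B : Alg S, IsFP E B → ∀ h : Hom A B, ∀ b : B.carrier,
      Forces E B (Fin.cons b (h.toFun ∘ r)) p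
  | _, A, r, .ex p => ∃ a : A.carrier, Forces E A (Fin.cons a r) p

/-- Truth of a sentence in the generic model: it is forced at every stage. -/
def TrueInGeneric {S : Sig} (E : Theory S) (a : Form S 0) : Prop :=
  ∀ A : Alg S, IsFP E A → Forces E A Fin.elim0 a

/-- Decidability of equality: for all x, y, either x = y or not x = y. -/
def dec (S : Sig) : Form S 0 :=
  .all (.all (.sup Bool (fun b => match b with
    | true => .eq (.var 0) (.var 1)
    | false => .imp (.eq (.var 0) (.var 1)) .bot)))

end Pool.Agent.Helper28.Geo
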