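import Pool.Agent.Helper28.Geo.Sem

set_option autoImplicit false

/-! Forcing in the generic model: monotonicity, soundness, and the known fact (Wraith) that
sentences true in the generic model are redundant. -/

namespace Pool.Agent.Helper28.Geo

variable {S : Sig}

/-- composition of homomorphisms -/
def Hom.comp {A B C : Alg S} (k : Hom B C) (h : Hom A B) : Hom A C where
  toFun := fun x => k.toFun (h.toFun x)
  map_op := by intro f a; rw [h.map_op, k.map_op]

/-- the identity -/
def Hom.id (A : Alg S) : Hom A A where
  toFun := fun x => x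
  map_op := by intro f a; rfl

theorem forces_mono {E : Theory S} {n : ℕ} (p : Form S n) : ∀ {A B : Alg S} (_ : IsFP E B)
    (h : Hom A B) (r : Fin n → A.carrier), Forces E A r p → Forces E B (h.toFun ∘ r) p := by
  induction p with
  | eq a b =>
    intro A B _ h r hr
    change a.eval B _ = b.eval B _
    have h1 := congrArg h.toFun (show a.eval A r = b.eval A r from hr)
    rw [h.map_eval, h.map_eval] at h1
    exact h1
  | top => intro A B _ h r hr; exact trivial
  | bot => intro A B _ h r hr; exact hr
  | and p q ihp ihq => intro A B hB h r hr; exact ⟨ihp hB h r hr.1, ihq hB h r hr.2⟩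
  | imp p q ihp ihq =>
    intro A B hB h r hr C hC k hp
    exact hr C hC (k.comp h) hp
  | sup I p ih =>
    intro A B hB h r hr
    obtain ⟨i, hi⟩ := hr
    exact ⟨i, ih i hB h r hi⟩
  | all p ih =>
    intro A B hB h r hr C hC k c
    exact hr C hC (k.comp h) c
  | ex p ih =>
    intro A B hB h r hr
    obtain ⟨a, ha⟩ := hr
    refine ⟨h.toFun a, ?_⟩
    have h1 := ih hB h _ ha
    have h2 : h.toFun ∘ (Fin.cons a r : Fin _ → A.carrier)
        = (Fin.cons (h.toFun a) (h.toFun ∘ r) : Fin _ → B.carrier) := cons_map h r a
    rwa [h2] at h1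

theorem forces_subst {E : Theory S} {n : ℕ} (p : Form S n) : ∀ {m : ℕ} (A : Alg S)
    (s : Fin n → Term S m) (r : Fin m → A.carrier),
    Forces E A r (p.subst s) ↔ Forces E A (fun i => (s i).eval A r) p := by
  have hcomp : ∀ {A B : Alg S} (h : Hom A B) {n m : ℕ} (s : Fin n → Term S m)
      (r : Fin m → A.carrier), (h.toFun ∘ fun i => (s i).eval A r)
        = fun i => (s i).eval B (h.toFun ∘ r) := by
    intro A B h n m s r
    funext i
    exact h.map_eval r (s i)
  induction p with
  | eq a b => intro m A s r; simp only [Form.subst, Forces, Term.eval_subst]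
  | top => intro m A s r; exact Iff.rfl
  | bot => intro m A s r; exact Iff.rfl
  | and p q ihp ihq => intro m A s r; simp only [Form.subst, Forces, ihp, ihq]
  | imp p q ihp ihq =>
    intro m A s r
    simp only [Form.subst, Forces, ihp, ihq, hcomp]
  | sup I p ih => intro m A s r; simp only [Form.subst, Forces, ih]
  | all p ih =>
    intro m A s r
    simp only [Form.subst, Forces, ih, eval_lift, hcomp]
  | ex p ih => intro m A s r; simp only [Form.subst, Forces, ih, eval_lift]

theorem forces_wk {E : Theory S} {n : ℕ} (p : Form S n) (A : Alg S) (r : Fin n → A.carrier)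
    (b : A.carrier) :
    Forces E A (Fin.cons b r : Fin (n + 1) → A.carrier) p.wk ↔ Forces E A r p := by
  rw [Form.wk, forces_subst]
  rfl

theorem forces_inst {E : Theory S} {n : ℕ} (p : Form S (n + 1)) (t : Term S n) (A : Alg S)
    (r : Fin n → A.carrier) :
    Forces E A r (p.inst t) ↔ Forces E A (Fin.cons (t.eval A r) r : Fin (n + 1) → A.carrier) p := by
  rw [Form.inst, forces_subst]
  have : (fun i => ((Fin.cases t Term.var : Fin (n + 1) → Term S n) i).eval A r)
      = (Fin.cons (t.eval A r) r : Fin (n + 1) → A.carrier) := by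
    funext i
    refine Fin.cases ?_ (fun j => ?_) i <;> rfl
  rw [this]

theorem forces_soundness {E : Theory S} {Ax : Set (Form S 0)}
    (hAx : ∀ a ∈ Ax, TrueInGeneric E a)
    {n : ℕ} {G : List (Form S n)} {p : Form S n} (h : Prf Ax G p) :
    ∀ (A : Alg S), IsFP E A → ∀ r : Fin n → A.carrier, (∀ g ∈ G, Forces E A r g) →
      Forces E A r p := by
  induction h with
  | @ax n G p h =>
    intro A hA r _
    rw [forces_subst]
    have : (fun i => (Fin.elim0 i : Term S n).eval A r) = Fin.elim0 := funext (fun i => i.elim0)
    rw [this]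
    exact hAx _ h A hA
  | hyp h => intro A hA r hG; exact hG _ h
  | topI => intro A hA r _; exact trivial
  | botE _ ih => intro A hA r hG; exact (ih A hA r hG).elim
  | andI _ _ ih1 ih2 => intro A hA r hG; exact ⟨ih1 A hA r hG, ih2 A hA r hG⟩
  | andE1 _ ih => intro A hA r hG; exact (ih A hA r hG).1
  | andE2 _ ih => intro A hA r hG; exact (ih A hA r hG).2
  | impI _ ih =>
    intro A hA r hG B hB h hp
    apply ih B hB
    intro g hg
    rcases List.mem_cons.1 hg with h1 | h1
    · rw [h1]; exact hp
    · exact forces_mono g hB h r (hG g h1)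
  | impE _ _ ih1 ih2 =>
    intro A hA r hG
    exact ih1 A hA r hG A hA (Hom.id A) (ih2 A hA r hG)
  | supI i _ ih => intro A hA r hG; exact ⟨i, ih A hA r hG⟩
  | supE _ _ ih1 ih2 =>
    intro A hA r hG
    obtain ⟨i, hi⟩ := ih1 A hA r hG
    exact ih2 i A hA r (by
      intro g hg
      rcases List.mem_cons.1 hg with h | h
      · rw [h]; exact hi
      · exact hG g h)
  | allI _ ih =>
    intro A hA r hG B hB h b
    apply ih B hB
    intro g hg
    obtain ⟨g', hg', rfl⟩ := List.mem_map.1 hg
    rw [forces_wk]
    exact forces_mono g' hB h r (hG g' hg')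
  | allE t _ ih =>
    intro A hA r hG
    rw [forces_inst]
    exact ih A hA r hG A hA (Hom.id A) _
  | exI t _ ih =>
    intro A hA r hG
    have := ih A hA r hG
    rw [forces_inst] at this
    exact ⟨_, this⟩
  | exE _ _ ih1 ih2 =>
    intro A hA r hG
    obtain ⟨b, hb⟩ := ih1 A hA r hG
    have h2 := ih2 A hA (Fin.cons b r) (by
      intro g hg
      rcases List.mem_cons.1 hg with h | h
      · rw [h]; exact hb
      · obtain ⟨g', hg', rfl⟩ := List.mem_map.1 h
        rw [forces_wk]; exact hG g' hg')
    rwa [forces_wk] at h2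
  | eqI t => intro A hA r _; exact rfl
  | @eqE n G s t p _ _ ih1 ih2 =>
    intro A hA r hG
    have h1 : s.eval A r = t.eval A r := ih1 A hA r hG
    have h2 := ih2 A hA r hG
    rw [forces_inst] at h2 ⊢
    rw [← h1]; exact h2

theorem forces_close {E : Theory S} : ∀ {n : ℕ} (p : Form S n),
    (∀ A : Alg S, IsFP E A → ∀ r : Fin n → A.carrier, Forces E A r p) →
    TrueInGeneric E p.close
  | 0, _, h => fun A hA => h A hA _
  | _ + 1, p, h => forces_close (.all p) (fun _ _ _ B hB _ _ => h B hB _)

theorem axioms_true (E : Theory S) : ∀ a ∈ axioms E, TrueInGeneric E a := by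
  rintro a ⟨e, he, rfl⟩
  exact forces_close _ (fun A hA r => hA.1 e he r)

theorem forces_geometric {E : Theory S} {n : ℕ} (p : Form S n) (hp : p.Geometric) :
    ∀ (A : Alg S) (r : Fin n → A.carrier), Forces E A r p ↔ Sat A r p := by
  induction p with
  | eq a b => intro A r; exact Iff.rfl
  | top => intro A r; exact Iff.rfl
  | bot => intro A r; exact Iff.rfl
  | and p q ihp ihq => intro A r; exact and_congr (ihp hp.1 A r) (ihq hp.2 A r)
  | imp p q ihp ihq => exact hp.elim
  | sup I p ih => intro A r; exact exists_congr (fun i => ih i (hp i) A r)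
  | all p ih => exact hp.elim
  | ex p ih => intro A r; exact exists_congr (fun b => ih hp A _)

/-- Wraith: a sentence true in the generic model is redundant. -/
theorem redundant_of_true {E : Theory S} {a : Form S 0} (ha : TrueInGeneric E a) :
    Redundant E a := by
  intro n p q hp hq h
  apply completeness hp hq
  intro A hA r hsat
  have h1 : Prf (axioms E ∪ {a}) [] ((Form.imp p q).close.subst
      (Fin.elim0 : Fin 0 → Term S n)) := h.subst (Fin.elim0 : Fin 0 → Term S n)
  have h2 := Prf.of_close (Form.imp p q) (Term.var : Fin n → Term S n) h1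
  rw [Form.subst_var] at h2
  have h3 := forces_soundness (E := E) (by
    rintro b (hb | hb)
    · exact axioms_true E b hb
    · rw [Set.mem_singleton_iff] at hb
      subst hb
      exact ha) h2 A hA r (by simp)
  have h4 := h3 A hA (Hom.id A) ((forces_geometric p hp A _).2 hsat)
  exact (forces_geometric q hq A _).1 h4

/-- Decidability of equality holds in the generic model exactly when all homomorphisms between
finitely presented models are injective. -/
theorem dec_true_iff (E : Theory S) : TrueInGeneric E (dec S) ↔
    ∀ A B : Alg S, IsFP E A → IsFP E B → ∀ h : Hom A B, Function.Injective h.toFun := by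
  constructor
  · intro H A B hA hB h a a' haa
    obtain ⟨i, hi⟩ := H A hA A hA (Hom.id A) a A hA (Hom.id A) a'
    cases i with
    | true =>
      have h1 : a' = a := hi
      exact h1.symm
    | false =>
      exact (hi B hB h haa.symm).elim
  · intro H A hA B hB h b C hC k c
    by_cases hc : c = k.toFun b
    · exact ⟨true, hc⟩
    · refine ⟨false, ?_⟩
      intro D hD l hl
      exact hc (H C D hC hD l hl)

/-! ### The empty theory over the empty signature -/

/-- the signature without function symbols -/
def emptySig : Sig := ⟨Empty, Empty.elim⟩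

/-- a set as an algebra for the empty signature -/
def setAlg (X : Type) : Alg emptySig := ⟨X, fun f => f.elim⟩

theorem setAlg_isFP (n : ℕ) : IsFP (∅ : Theory emptySig) (setAlg (Fin n)) := by
  refine ⟨fun e he => he.elim, n, [], fun i => i, by simp, ?_⟩
  intro B _ b _
  refine ⟨⟨b, fun f => f.elim⟩, fun _ => rfl, ?_⟩
  intro h hh
  cases h
  congr
  funext i
  exact hh i

/-- every function is a homomorphism -/
def setHom {A B : Alg emptySig} (φ : A.carrier → B.carrier) : Hom A B := ⟨φ, fun f => f.elim⟩

theorem not_dec_true : TrueInGeneric (∅ : Theory emptySig) (.imp (dec emptySig) .bot) := by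
  intro A hA B hB h H
  obtain ⟨i, hi⟩ := H (setAlg (Fin 2)) (setAlg_isFP 2) (setHom (fun _ => (0 : Fin 2))) (0 : Fin 2)
    (setAlg (Fin 2)) (setAlg_isFP 2) (Hom.id _) (1 : Fin 2)
  cases i with
  | true =>
    have h1 : (1 : Fin 2) = (0 : Fin 2) := hi
    exact absurd h1 (by decide)
  | false =>
    exact hi (setAlg (Fin 1)) (setAlg_isFP 1) (setHom (fun _ => (0 : Fin 1))) rfl

theorem dec_not_true : ¬ TrueInGeneric (∅ : Theory emptySig) (dec emptySig) := by
  intro H
  exact not_dec_true _ (setAlg_isFP 1) (setAlg (Fin 1)) (setAlg_isFP 1) (Hom.id _)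
    (by
      have h1 := forces_mono (dec emptySig) (setAlg_isFP 1) (Hom.id (setAlg (Fin 1)))
        Fin.elim0 (H _ (setAlg_isFP 1))
      exact h1)

end Pool.Agent.Helper28.Geo
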