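import Pool.Agent.Helper28.Geo.Subst

set_option autoImplicit false

/-! Classical semantics, soundness, term models. -/

namespace Pool.Agent.Helper28.Geo

variable {S : Sig}

theorem Term.eval_subst (A : Alg S) {n m : ℕ} (s : Fin n → Term S m) (r : Fin m → A.carrier)
    (t : Term S n) : (t.subst s).eval A r = t.eval A (fun i => (s i).eval A r) := by
  induction t with
  | var i => rfl
  | app f a ih => simp only [Term.subst, Term.eval, ih]

/-- Classical truth of a formula in an algebra. -/
def Sat (A : Alg S) : {n : ℕ} → (Fin n → A.carrier) → Form S n → Prop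
  | _, r, .eq s t => s.eval A r = t.eval A r
  | _, _, .top => True
  | _, _, .bot => False
  | _, r, .and p q => Sat A r p ∧ Sat A r q
  | _, r, .imp p q => Sat A r p → Sat A r q
  | _, r, .sup _ p => ∃ i, Sat A r (p i)
  | _, r, .all p => ∀ b : A.carrier, Sat A (Fin.cons b r) p
  | _, r, .ex p => ∃ b : A.carrier, Sat A (Fin.cons b r) p

theorem eval_lift (A : Alg S) {n m : ℕ} (s : Fin n → Term S m) (r : Fin m → A.carrier)
    (b : A.carrier) : (fun i => (lift s i).eval A (Fin.cons b r : Fin (m + 1) → A.carrier))
      = (Fin.cons b (fun i => (s i).eval A r) : Fin (n + 1) → A.carrier) := by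
  funext i
  refine Fin.cases ?_ (fun j => ?_) i
  · rfl
  · simp only [lift, Fin.cases_succ, Term.eval_subst, Fin.cons_succ]
    rfl

theorem sat_subst (A : Alg S) {n : ℕ} (p : Form S n) : ∀ {m : ℕ} (s : Fin n → Term S m)
    (r : Fin m → A.carrier), Sat A r (p.subst s) ↔ Sat A (fun i => (s i).eval A r) p := by
  induction p with
  | eq a b => intro m s r; simp only [Form.subst, Sat, Term.eval_subst]
  | top => intro m s r; exact Iff.rfl
  | bot => intro m s r; exact Iff.rfl
  | and p q ihp ihq => intro m s r; simp only [Form.subst, Sat, ihp, ihq]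
  | imp p q ihp ihq => intro m s r; simp only [Form.subst, Sat, ihp, ihq]
  | sup I p ih => intro m s r; simp only [Form.subst, Sat, ih]
  | all p ih => intro m s r; simp only [Form.subst, Sat, ih, eval_lift]
  | ex p ih => intro m s r; simp only [Form.subst, Sat, ih, eval_lift]

theorem sat_wk (A : Alg S) {n : ℕ} (p : Form S n) (r : Fin n → A.carrier) (b : A.carrier) :
    Sat A (Fin.cons b r : Fin (n + 1) → A.carrier) p.wk ↔ Sat A r p := by
  rw [Form.wk, sat_subst]
  rfl

theorem sat_inst (A : Alg S) {n : ℕ} (p : Form S (n + 1)) (t : Term S n)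
    (r : Fin n → A.carrier) :
    Sat A r (p.inst t) ↔ Sat A (Fin.cons (t.eval A r) r : Fin (n + 1) → A.carrier) p := by
  rw [Form.inst, sat_subst]
  have : (fun i => ((Fin.cases t Term.var : Fin (n + 1) → Term S n) i).eval A r)
      = (Fin.cons (t.eval A r) r : Fin (n + 1) → A.carrier) := by
    funext i
    refine Fin.cases ?_ (fun j => ?_) i <;> rfl
  rw [this]

theorem soundness {Ax : Set (Form S 0)} (A : Alg S) (hA : ∀ a ∈ Ax, Sat A Fin.elim0 a)
    {n : ℕ} {G : List (Form S n)} {p : Form S n} (h : Prf Ax G p) :
    ∀ r : Fin n → A.carrier, (∀ g ∈ G, Sat A r g) → Sat A r p := by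
  induction h with
  | @ax n G p h =>
    intro r _
    rw [sat_subst]
    have : (fun i => (Fin.elim0 i : Term S n).eval A r) = Fin.elim0 := funext (fun i => i.elim0)
    rw [this]
    exact hA _ h
  | hyp h => intro r hG; exact hG _ h
  | topI => intro r _; exact trivial
  | botE _ ih => intro r hG; exact (ih r hG).elim
  | andI _ _ ih1 ih2 => intro r hG; exact ⟨ih1 r hG, ih2 r hG⟩
  | andE1 _ ih => intro r hG; exact (ih r hG).1
  | andE2 _ ih => intro r hG; exact (ih r hG).2
  | impI _ ih =>
    intro r hG hp
    exact ih r (by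
      intro g hg
      rcases List.mem_cons.1 hg with h | h
      · rw [h]; exact hp
      · exact hG g h)
  | impE _ _ ih1 ih2 => intro r hG; exact ih1 r hG (ih2 r hG)
  | supI i _ ih => intro r hG; exact ⟨i, ih r hG⟩
  | supE _ _ ih1 ih2 =>
    intro r hG
    obtain ⟨i, hi⟩ := ih1 r hG
    exact ih2 i r (by
      intro g hg
      rcases List.mem_cons.1 hg with h | h
      · rw [h]; exact hi
      · exact hG g h)
  | allI _ ih =>
    intro r hG b
    apply ih
    intro g hg
    obtain ⟨g', hg', rfl⟩ := List.mem_map.1 hg
    rw [sat_wk]; exact hG g' hg'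
  | allE t _ ih => intro r hG; rw [sat_inst]; exact ih r hG _
  | exI t _ ih => intro r hG; have := ih r hG; rw [sat_inst] at this; exact ⟨_, this⟩
  | exE _ _ ih1 ih2 =>
    intro r hG
    obtain ⟨b, hb⟩ := ih1 r hG
    have h2 := ih2 (Fin.cons b r) (by
      intro g hg
      rcases List.mem_cons.1 hg with h | h
      · rw [h]; exact hb
      · obtain ⟨g', hg', rfl⟩ := List.mem_map.1 h
        rw [sat_wk]; exact hG g' hg')
    rwa [sat_wk] at h2
  | eqI t => intro r _; exact rfl
  | @eqE n G s t p _ _ ih1 ih2 =>
    intro r hG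
    have h1 : s.eval A r = t.eval A r := ih1 r hG
    have h2 := ih2 r hG
    rw [sat_inst] at h2 ⊢
    rw [← h1]; exact h2

theorem sat_close (A : Alg S) : ∀ {n : ℕ} (p : Form S n),
    Sat A Fin.elim0 p.close ↔ ∀ r : Fin n → A.carrier, Sat A r p
  | 0, p => by
    constructor
    · intro h r
      have : r = Fin.elim0 := funext (fun i => i.elim0)
      rw [this]; exact h
    · intro h; exact h _
  | n + 1, p => by
    rw [Form.close, sat_close A (.all p)]
    constructor
    · intro h r
      have := h (fun i => r i.succ) (r 0)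
      have h2 : (Fin.cons (r 0) (fun i => r i.succ) : Fin (n + 1) → A.carrier) = r := by
        funext i
        refine Fin.cases ?_ (fun j => ?_) i <;> rfl
      rwa [h2] at this
    · intro h r b; exact h _

theorem sat_axioms {E : Theory S} (A : Alg S) (hA : IsModel E A) :
    ∀ a ∈ axioms E, Sat A Fin.elim0 a := by
  rintro a ⟨e, he, rfl⟩
  rw [sat_close]
  exact fun r => hA e he r

/-! ### Homomorphisms -/

theorem Hom.map_eval {A B : Alg S} (h : Hom A B) {n : ℕ} (r : Fin n → A.carrier) (t : Term S n) :
    h.toFun (t.eval A r) = t.eval B (fun i => h.toFun (r i)) := by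
  induction t with
  | var i => rfl
  | app f a ih => simp only [Term.eval, h.map_op, ih]

theorem cons_map {A B : Alg S} (h : Hom A B) {n : ℕ} (r : Fin n → A.carrier) (b : A.carrier) :
    (fun i => h.toFun ((Fin.cons b r : Fin (n + 1) → A.carrier) i))
      = (Fin.cons (h.toFun b) (fun i => h.toFun (r i)) : Fin (n + 1) → B.carrier) := by
  funext i
  refine Fin.cases ?_ (fun j => ?_) i <;> rfl

theorem Hom.sat_geometric {A B : Alg S} (h : Hom A B) {n : ℕ} (p : Form S n)
    (hp : p.Geometric) : ∀ r : Fin n → A.carrier, Sat A r p → Sat B (fun i => h.toFun (r i)) p := by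
  induction p with
  | eq a b =>
    intro r hr
    change a.eval B _ = b.eval B _
    rw [← h.map_eval, ← h.map_eval]
    exact congrArg h.toFun hr
  | top => intro r hr; exact trivial
  | bot => intro r hr; exact hr
  | and p q ihp ihq => intro r hr; exact ⟨ihp hp.1 r hr.1, ihq hp.2 r hr.2⟩
  | imp p q ihp ihq => exact hp.elim
  | sup I p ih =>
    intro r hr
    obtain ⟨i, hi⟩ := hr
    exact ⟨i, ih i (hp i) r hi⟩
  | all p ih => exact hp.elim
  | ex p ih =>
    intro r hr
    obtain ⟨b, hb⟩ := hr
    refine ⟨h.toFun b, ?_⟩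
    have := ih hp _ hb
    rwa [cons_map] at this

/-! ### Term models -/

section TermModel

variable (Ax : Set (Form S 0))

theorem prf_symm {Ax : Set (Form S 0)} {n : ℕ} {R : List (Form S n)} {s t : Term S n}
    (h : Prf Ax R (.eq s t)) : Prf Ax R (.eq t s) := by
  have h1 : Prf Ax R ((Form.eq (.var 0) s.wk).inst s) := by
    change Prf Ax R (.eq s (s.wk.subst _))
    rw [Term.wk_inst]; exact Prf.eqI s
  have h2 := Prf.eqE _ h h1
  change Prf Ax R (.eq t (s.wk.subst _)) at h2
  rwa [Term.wk_inst] at h2

theorem prf_trans {Ax : Set (Form S 0)} {n : ℕ} {R : List (Form S n)} {s t u : Term S n}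
    (h1 : Prf Ax R (.eq s t)) (h2 : Prf Ax R (.eq t u)) : Prf Ax R (.eq s u) := by
  have h3 : Prf Ax R ((Form.eq s.wk (.var 0)).inst t) := by
    change Prf Ax R (.eq (s.wk.subst _) t)
    rw [Term.wk_inst]; exact h1
  have h4 := Prf.eqE _ h2 h3
  change Prf Ax R (.eq (s.wk.subst _) u) at h4
  rwa [Term.wk_inst] at h4

theorem prf_app {Ax : Set (Form S 0)} {n : ℕ} {R : List (Form S n)} (f : S.Op)
    (a b : Fin (S.ar f) → Term S n) (h : ∀ j, Prf Ax R (.eq (a j) (b j))) :
    Prf Ax R (.eq (.app f a) (.app f b)) := by
  have key : ∀ k : ℕ, k ≤ S.ar f →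
      Prf Ax R (.eq (.app f a) (.app f (fun j => if j.1 < k then b j else a j))) := by
    intro k
    induction k with
    | zero => intro _; simpa using Prf.eqI _
    | succ k ih =>
      intro hk
      have h1 := ih (by omega)
      set j0 : Fin (S.ar f) := ⟨k, by omega⟩ with hj0
      set p : Form S (n + 1) := .eq (Term.wk (.app f a)) (.app f (fun j =>
        if j.1 < k then (b j).wk else if j.1 = k then .var 0 else (a j).wk)) with hp
      have hinst : ∀ u : Term S n, p.inst u = .eq (.app f a) (.app f (fun j =>
          if j.1 < k then b j else if j.1 = k then u else a j)) := by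
        intro u
        change Form.eq ((Term.wk (.app f a)).subst _) _ = _
        rw [Term.wk_inst]
        congr 1
        change Term.app f (fun j => Term.subst (Fin.cases u Term.var)
          (if j.1 < k then (b j).wk else if j.1 = k then .var 0 else (a j).wk)) = _
        congr 1
        funext j
        split_ifs
        · exact Term.wk_inst _ _
        · rfl
        · exact Term.wk_inst _ _
      have h2 : Prf Ax R (p.inst (a j0)) := by
        rw [hinst]
        convert h1 using 3
        funext j
        by_cases hj : j.1 < k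
        · simp [hj]
        · by_cases hj2 : j.1 = k
          · have : j = j0 := Fin.ext hj2
            subst this
            simp
          · simp [hj, hj2]
      have h3 := Prf.eqE p (h j0) h2
      rw [hinst] at h3
      convert h3 using 3
      funext j
      by_cases hj : j.1 < k
      · simp [hj, Nat.lt_succ_of_lt hj]
      · by_cases hj2 : j.1 = k
        · have : j = j0 := Fin.ext hj2
          subst this
          rw [if_pos (by omega), if_neg hj, if_pos hj2]
        · have : ¬ j.1 < k + 1 := by omega
          simp [hj, hj2, this]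
  have := key (S.ar f) le_rfl
  simpa using this

/-- provable equality from hypotheses `R` -/
def teq {n : ℕ} (R : List (Form S n)) : Setoid (Term S n) where
  r s t := Prf Ax R (.eq s t)
  iseqv := ⟨fun t => Prf.eqI t, prf_symm, prf_trans⟩

/-- the term model -/
noncomputable def TM {n : ℕ} (R : List (Form S n)) : Alg S where
  carrier := Quotient (teq Ax R)
  op f a := Quotient.mk _ (.app f (fun j => (a j).out))

/-- the class of a term -/
def cls {n : ℕ} (R : List (Form S n)) (t : Term S n) : (TM Ax R).carrier :=
  (Quotient.mk (teq Ax R) t : Quotient (teq Ax R))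

theorem cls_eq {n : ℕ} {R : List (Form S n)} {s t : Term S n} :
    cls Ax R s = cls Ax R t ↔ Prf Ax R (.eq s t) :=
  ⟨fun h => Quotient.exact h, fun h => Quotient.sound h⟩

theorem cls_surj {n : ℕ} {R : List (Form S n)} (x : (TM Ax R).carrier) :
    ∃ t, cls Ax R t = x := Quotient.exists_rep (x : Quotient (teq Ax R))

theorem TM_op {n : ℕ} {R : List (Form S n)} (f : S.Op) (a : Fin (S.ar f) → Term S n) :
    (TM Ax R).op f (fun j => cls Ax R (a j)) = cls Ax R (.app f a) := by
  change cls Ax R (.app f (fun j => Quotient.out (Quotient.mk (teq Ax R) (a j)))) = _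
  rw [cls_eq]
  apply prf_app
  intro j
  exact Quotient.exact (Quotient.out_eq (Quotient.mk (teq Ax R) (a j)))

theorem TM_eval {n m : ℕ} {R : List (Form S n)} (s : Fin m → Term S n) (t : Term S m) :
    t.eval (TM Ax R) (fun i => cls Ax R (s i)) = cls Ax R (t.subst s) := by
  induction t with
  | var i => rfl
  | app f a ih =>
    simp only [Term.eval, ih, Term.subst]
    exact TM_op Ax f _

theorem exists_rep_fun {n m : ℕ} {R : List (Form S n)} (r : Fin m → (TM Ax R).carrier) :
    ∃ s : Fin m → Term S n, r = fun i => cls Ax R (s i) := by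
  choose s hs using fun i => cls_surj Ax (r i)
  exact ⟨s, funext (fun i => (hs i).symm)⟩

theorem TM_isModel (E : Theory S) {n : ℕ} (R : List (Form S n)) :
    IsModel E (TM (axioms E) R) := by
  intro e he r
  obtain ⟨s, rfl⟩ := exists_rep_fun (axioms E) r
  rw [TM_eval, TM_eval, cls_eq]
  have h1 : Prf (axioms E) R ((Form.eq e.2.1 e.2.2).close.subst Fin.elim0) :=
    Prf.ax ⟨e, he, rfl⟩
  exact Prf.of_close (Form.eq e.2.1 e.2.2) s h1

/-- Claim 1: geometric formulas true in the term model are provable. -/
theorem prf_of_sat {m : ℕ} (q : Form S m) (hq : q.Geometric) : ∀ {n : ℕ} {R : List (Form S n)}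
    (s : Fin m → Term S n), Sat (TM Ax R) (fun i => cls Ax R (s i)) q → Prf Ax R (q.subst s) := by
  induction q with
  | eq a b =>
    intro n R s h
    have h1 : a.eval (TM Ax R) _ = b.eval (TM Ax R) _ := h
    rw [TM_eval, TM_eval, cls_eq] at h1
    exact h1
  | top => intro n R s _; exact Prf.topI
  | bot => intro n R s h; exact h.elim
  | and p q ihp ihq => intro n R s h; exact Prf.andI (ihp hq.1 s h.1) (ihq hq.2 s h.2)
  | imp p q ihp ihq => exact hq.elim
  | sup I p ih =>
    intro n R s h
    obtain ⟨i, hi⟩ := h
    exact Prf.supI (p := fun i => (p i).subst s) i (ih i (hq i) s hi)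
  | all p ih => exact hq.elim
  | ex p ih =>
    intro n R s h
    obtain ⟨x, hx⟩ := h
    obtain ⟨t, rfl⟩ := cls_surj Ax x
    have h1 : (Fin.cons (cls Ax R t) (fun i => cls Ax R (s i)) : Fin _ → (TM Ax R).carrier)
        = fun i => cls Ax R ((Fin.cases t s : Fin _ → Term S n) i) := by
      funext i
      refine Fin.cases ?_ (fun j => ?_) i <;> rfl
    rw [h1] at hx
    have h2 := ih hq _ hx
    apply Prf.exI t
    rw [Form.lift_inst]
    exact h2

/-- the homomorphism between term models induced by a substitution -/
noncomputable def TMhom {n n' : ℕ} (R : List (Form S n)) (R' : List (Form S n'))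
    (τ : Fin n → Term S n') (h : ∀ g ∈ R, g.subst τ ∈ R') : Hom (TM Ax R) (TM Ax R') where
  toFun := Quotient.lift (fun t => cls Ax R' (t.subst τ)) (by
    intro a b hab
    rw [cls_eq]
    have h1 : Prf Ax R (.eq a b) := hab
    have h2 := h1.subst τ
    apply h2.weaken
    intro g hg
    obtain ⟨g', hg', rfl⟩ := List.mem_map.1 hg
    exact h g' hg')
  map_op := by
    intro f a
    obtain ⟨s, rfl⟩ := exists_rep_fun Ax a
    rw [TM_op]
    change cls Ax R' ((Term.app f s).subst τ) = (TM Ax R').op f (fun j => cls Ax R' ((s j).subst τ))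
    rw [TM_op]
    rfl

theorem TMhom_cls {n n' : ℕ} (R : List (Form S n)) (R' : List (Form S n'))
    (τ : Fin n → Term S n') (h : ∀ g ∈ R, g.subst τ ∈ R') (t : Term S n) :
    (TMhom Ax R R' τ h).toFun (cls Ax R t) = cls Ax R' (t.subst τ) := rfl

/-- the equations of a list of pairs of terms -/
def eqs {n : ℕ} (R : List (Term S n × Term S n)) : List (Form S n) :=
  R.map (fun e => .eq e.1 e.2)

theorem eqs_sub {n n' : ℕ} {R : List (Term S n × Term S n)} {R' : List (Term S n' × Term S n')}
    {τ : Fin n → Term S n'} (h : ∀ e ∈ R, (e.1.subst τ, e.2.subst τ) ∈ R') :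
    ∀ g ∈ eqs R, g.subst τ ∈ eqs R' := by
  intro g hg
  obtain ⟨e, he, rfl⟩ := List.mem_map.1 hg
  exact List.mem_map.2 ⟨_, h e he, rfl⟩

/-- Claim 2: to prove `χ` from a geometric hypothesis it is enough to prove it at every later
finitely presented stage whose term model satisfies the hypothesis. -/
theorem prf_of_stages {m : ℕ} (p : Form S m) (hp : p.Geometric) :
    ∀ {n : ℕ} (R : List (Term S n × Term S n)) (s : Fin m → Term S n) (χ : Form S n),
    (∀ (n' : ℕ) (τ : Fin n → Term S n') (R' : List (Term S n' × Term S n')),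
      (∀ e ∈ R, (e.1.subst τ, e.2.subst τ) ∈ R') →
      Sat (TM Ax (eqs R')) (fun i => cls Ax (eqs R') ((s i).subst τ)) p →
      Prf Ax (eqs R') (χ.subst τ)) →
    Prf Ax (p.subst s :: eqs R) χ := by
  induction p with
  | eq a b =>
    intro n R s χ H
    have h1 := H n Term.var ((a.subst s, b.subst s) :: R) (by
      intro e he
      rw [Term.subst_var, Term.subst_var]
      exact List.mem_cons_of_mem _ he) (by
      change a.eval (TM Ax _) _ = b.eval (TM Ax _) _
      rw [TM_eval, TM_eval, cls_eq]
      simp only [Term.subst_var]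
      exact Prf.hyp List.mem_cons_self)
    rwa [Form.subst_var] at h1
  | top =>
    intro n R s χ H
    have h1 := H n Term.var R (by
      intro e he
      rw [Term.subst_var, Term.subst_var]
      exact he) trivial
    rw [Form.subst_var] at h1
    exact h1.weaken (List.subset_cons_self _ _)
  | bot =>
    intro n R s χ H
    exact Prf.botE (Prf.hyp List.mem_cons_self)
  | and p q ihp ihq =>
    intro n R s χ H
    have h1 : Prf Ax (p.subst s :: eqs R) (.imp (q.subst s) χ) := by
      apply ihp hp.1 R s
      intro n' τ R' hR' hsat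
      apply Prf.impI
      rw [Form.subst_subst]
      apply ihq hp.2 R' (fun i => (s i).subst τ) (χ.subst τ)
      intro n'' τ' R'' hR'' hsat'
      have h3 := (TMhom Ax (eqs R') (eqs R'') τ' (eqs_sub hR'')).sat_geometric p hp.1 _ hsat
      have h4 := H n'' (fun i => (τ i).subst τ') R'' (by
        intro e he
        have := hR'' _ (hR' e he)
        simp only [Term.subst_subst] at this
        exact this) (by
        refine ⟨?_, ?_⟩
        · simp only [← Term.subst_subst]
          exact h3
        · simp only [← Term.subst_subst]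
          exact hsat')
      rwa [← Form.subst_subst] at h4
    have hA : Prf Ax (Form.subst s (p.and q) :: eqs R) (.and (p.subst s) (q.subst s)) :=
      Prf.hyp List.mem_cons_self
    refine Prf.impE (Prf.cut hA.andE1 (h1.weaken ?_)) hA.andE2
    intro g hg
    simp only [List.mem_cons] at hg ⊢
    tauto
  | imp p q ihp ihq => exact hp.elim
  | sup I p ih =>
    intro n R s χ H
    have hA : Prf Ax (Form.subst s (.sup I p) :: eqs R) (.sup I (fun i => (p i).subst s)) :=
      Prf.hyp List.mem_cons_self
    apply Prf.supE hA
    intro i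
    apply (ih i (hp i) R s χ ?_).weaken
    · intro g hg
      simp only [List.mem_cons] at hg ⊢
      tauto
    · intro n' τ R' hR' hsat
      exact H n' τ R' hR' ⟨i, hsat⟩
  | all p ih => exact hp.elim
  | ex p ih =>
    intro n R s χ H
    have hA : Prf Ax (Form.subst s (.ex p) :: eqs R) (.ex (p.subst (lift s))) :=
      Prf.hyp List.mem_cons_self
    apply Prf.exE hA
    have hmap : eqs (R.map (fun e => (e.1.wk, e.2.wk))) = (eqs R).map Form.wk := by
      rw [eqs, eqs, List.map_map, List.map_map]
      rfl
    have h1 : Prf Ax (p.subst (lift s) :: eqs (R.map (fun e => (e.1.wk, e.2.wk)))) χ.wk := by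
      apply ih hp (R.map (fun e => (e.1.wk, e.2.wk))) (lift s) χ.wk
      intro n' τ R' hR' hsat
      have h2 := H n' (fun i => τ i.succ) R' (by
        intro e he
        have := hR' (e.1.wk, e.2.wk) (List.mem_map.2 ⟨e, he, rfl⟩)
        simp only [Term.wk, Term.subst_subst] at this
        exact this) (by
        refine ⟨cls Ax (eqs R') (τ 0), ?_⟩
        have h3 : (Fin.cons (cls Ax (eqs R') (τ 0))
            (fun i => cls Ax (eqs R') ((s i).subst (fun i => τ i.succ))) :
              Fin _ → (TM Ax (eqs R')).carrier)
            = fun i => cls Ax (eqs R') ((lift s i).subst τ) := by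
          funext i
          refine Fin.cases ?_ (fun j => ?_) i
          · rfl
          · simp only [Fin.cons_succ, lift, Fin.cases_succ, Term.subst_subst]
            rfl
        rw [h3]; exact hsat)
      rw [Form.wk, Form.subst_subst]
      exact h2
    rw [hmap] at h1
    apply h1.weaken
    intro g hg
    simp only [List.mem_cons, List.map_cons] at hg ⊢
    tauto

end TermModel

/-- The term models of finite lists of equations are finitely presented. -/
theorem TM_isFP (E : Theory S) {n : ℕ} (R : List (Term S n × Term S n)) :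
    IsFP E (TM (axioms E) (eqs R)) := by
  refine ⟨TM_isModel E _, n, R, fun i => cls _ _ (.var i), ?_, ?_⟩
  · intro e he
    rw [TM_eval, TM_eval, cls_eq, Term.subst_var, Term.subst_var]
    exact Prf.hyp (List.mem_map.2 ⟨e, he, rfl⟩)
  · intro B hB b hb
    have hwd : ∀ s t : Term S n, Prf (axioms E) (eqs R) (.eq s t) →
        s.eval B b = t.eval B b := by
      intro s t h
      exact soundness B (sat_axioms B hB) h b (by
        intro g hg
        obtain ⟨e, he, rfl⟩ := List.mem_map.1 hg
        exact hb e he)
    let φ : (TM (axioms E) (eqs R)).carrier → B.carrier :=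
      Quotient.lift (fun t : Term S n => t.eval B b) hwd
    have hφ : ∀ t, φ (cls _ _ t) = t.eval B b := fun _ => rfl
    refine ⟨⟨φ, ?_⟩, fun i => rfl, ?_⟩
    · intro f a
      obtain ⟨s, rfl⟩ := exists_rep_fun (axioms E) a
      rw [TM_op, hφ]
      rfl
    · intro h' hh'
      have : h'.toFun = φ := by
        funext x
        obtain ⟨t, rfl⟩ := cls_surj (axioms E) x
        have h1 := h'.map_eval (fun i => cls (axioms E) (eqs R) (.var i)) t
        rw [TM_eval, Term.subst_var] at h1
        rw [h1, hφ]
        exact congrArg (fun r => t.eval B r) (funext hh')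
      cases h'
      simp only at this
      subst this
      rfl

/-- Completeness: a geometric implication true in all finitely presented models of `E` is
provable. -/
theorem completeness {E : Theory S} {n : ℕ} {p q : Form S n} (hp : p.Geometric)
    (hq : q.Geometric)
    (h : ∀ A : Alg S, IsFP E A → ∀ r : Fin n → A.carrier, Sat A r p → Sat A r q) :
    Prf (axioms E) [] (Form.imp p q).close := by
  apply Prf.close
  apply Prf.impI
  have := prf_of_stages (axioms E) p hp [] Term.var q (by
    intro n' τ R' _ hsat
    have h1 := h (TM (axioms E) (eqs R')) (TM_isFP E R') _ hsat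
    exact prf_of_sat (axioms E) q hq τ h1)
  rw [Form.subst_var] at this
  exact this

theorem dec_redundant (E : Theory S) : Redundant E (dec S) := by
  intro n p q hp hq h
  apply completeness hp hq
  intro A hA
  have h1 := soundness A (Ax := axioms E ∪ {dec S}) (by
    rintro a (ha | ha)
    · exact sat_axioms A hA.1 a ha
    · rw [Set.mem_singleton_iff] at ha
      subst ha
      intro x y
      by_cases hxy : y = x
      · exact ⟨true, hxy⟩
      · exact ⟨false, hxy⟩) h Fin.elim0 (by simp)
  rw [sat_close] at h1
  exact h1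

end Pool.Agent.Helper28.Geo
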