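import Pool.Agent.Helper28.Geo.Defs

set_option autoImplicit false

/-! Substitution lemmas and admissible rules. -/

namespace Pool.Agent.Helper28.Geo

variable {S : Sig}

/-- weakening of terms -/
def Term.wk {n : ℕ} (t : Term S n) : Term S (n + 1) := t.subst (fun i => .var i.succ)

theorem Term.subst_var {n : ℕ} (t : Term S n) : t.subst Term.var = t := by
  induction t with
  | var i => rfl
  | app f a ih => simp only [Term.subst, ih]

theorem Term.subst_subst {n m k : ℕ} (s : Fin n → Term S m) (s' : Fin m → Term S k)
    (t : Term S n) : (t.subst s).subst s' = t.subst (fun i => (s i).subst s') := by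
  induction t with
  | var i => rfl
  | app f a ih => simp only [Term.subst, ih]

theorem lift_var {n : ℕ} : lift (Term.var : Fin n → Term S n) = Term.var := by
  funext i
  refine Fin.cases ?_ (fun j => ?_) i
  · rfl
  · rfl

theorem lift_comp {n m k : ℕ} (s : Fin n → Term S m) (s' : Fin m → Term S k) :
    (fun i => (lift s i).subst (lift s')) = lift (fun i => (s i).subst s') := by
  funext i
  refine Fin.cases ?_ (fun j => ?_) i
  · rfl
  · simp only [lift, Fin.cases_succ, Term.subst_subst]
    rfl

theorem Form.subst_var {n : ℕ} (p : Form S n) : p.subst Term.var = p := by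
  induction p with
  | eq a b => simp only [Form.subst, Term.subst_var]
  | top => rfl
  | bot => rfl
  | and p q ihp ihq => simp only [Form.subst, ihp, ihq]
  | imp p q ihp ihq => simp only [Form.subst, ihp, ihq]
  | sup I p ih => simp only [Form.subst, ih]
  | all p ih => simp only [Form.subst, lift_var, ih]
  | ex p ih => simp only [Form.subst, lift_var, ih]

theorem Form.subst_subst {n : ℕ} (p : Form S n) : ∀ {m k : ℕ} (s : Fin n → Term S m)
    (s' : Fin m → Term S k), (p.subst s).subst s' = p.subst (fun i => (s i).subst s') := by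
  induction p with
  | eq a b => intro m k s s'; simp only [Form.subst, Term.subst_subst]
  | top => intro m k s s'; rfl
  | bot => intro m k s s'; rfl
  | and p q ihp ihq => intro m k s s'; simp only [Form.subst, ihp, ihq]
  | imp p q ihp ihq => intro m k s s'; simp only [Form.subst, ihp, ihq]
  | sup I p ih => intro m k s s'; simp only [Form.subst, ih]
  | all p ih => intro m k s s'; simp only [Form.subst, ih, lift_comp]
  | ex p ih => intro m k s s'; simp only [Form.subst, ih, lift_comp]

theorem Form.subst_congr {n m : ℕ} (p : Form S n) {s s' : Fin n → Term S m} (h : ∀ i, s i = s' i) :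
    p.subst s = p.subst s' := by
  rw [funext h]

theorem Term.wk_inst {n : ℕ} (t u : Term S n) :
    t.wk.subst (Fin.cases u Term.var) = t := by
  rw [Term.wk, Term.subst_subst]
  exact Term.subst_var t

theorem Form.wk_inst {n : ℕ} (p : Form S n) (u : Term S n) : p.wk.inst u = p := by
  rw [Form.wk, Form.inst, Form.subst_subst]
  exact Form.subst_var p

theorem Form.wk_subst {n m : ℕ} (p : Form S n) (s : Fin n → Term S m) :
    p.wk.subst (lift s) = (p.subst s).wk := by
  rw [Form.wk, Form.wk, Form.subst_subst, Form.subst_subst]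
  rfl

theorem Form.inst_subst {n m : ℕ} (p : Form S (n + 1)) (t : Term S n) (s : Fin n → Term S m) :
    (p.inst t).subst s = (p.subst (lift s)).inst (t.subst s) := by
  rw [Form.inst, Form.inst, Form.subst_subst, Form.subst_subst]
  apply Form.subst_congr
  intro i
  refine Fin.cases ?_ (fun j => ?_) i
  · rfl
  · simp only [Fin.cases_succ, lift, Term.subst]
    exact (Term.wk_inst (s j) (t.subst s)).symm

theorem Form.lift_inst {n m : ℕ} (p : Form S (n + 1)) (t : Term S m) (s : Fin n → Term S m) :
    (p.subst (lift s)).inst t = p.subst (Fin.cases t s) := by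
  rw [Form.inst, Form.subst_subst]
  apply Form.subst_congr
  intro i
  refine Fin.cases ?_ (fun j => ?_) i
  · rfl
  · simp only [Fin.cases_succ, lift]
    exact Term.wk_inst (s j) t

/-! ### Admissible rules -/

variable {Ax : Set (Form S 0)}

theorem Prf.weaken {n : ℕ} {G : List (Form S n)} {p : Form S n} (h : Prf Ax G p) :
    ∀ {G' : List (Form S n)}, G ⊆ G' → Prf Ax G' p := by
  induction h with
  | ax h => intro G' _; exact Prf.ax h
  | hyp h => intro G' hG; exact Prf.hyp (hG h)
  | topI => intro G' _; exact Prf.topI
  | botE _ ih => intro G' hG; exact Prf.botE (ih hG)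
  | andI _ _ ih1 ih2 => intro G' hG; exact Prf.andI (ih1 hG) (ih2 hG)
  | andE1 _ ih => intro G' hG; exact Prf.andE1 (ih hG)
  | andE2 _ ih => intro G' hG; exact Prf.andE2 (ih hG)
  | impI _ ih => intro G' hG; exact Prf.impI (ih (List.cons_subset_cons _ hG))
  | impE _ _ ih1 ih2 => intro G' hG; exact Prf.impE (ih1 hG) (ih2 hG)
  | supI i _ ih => intro G' hG; exact Prf.supI i (ih hG)
  | supE _ _ ih1 ih2 =>
    intro G' hG; exact Prf.supE (ih1 hG) (fun i => ih2 i (List.cons_subset_cons _ hG))
  | allI _ ih => intro G' hG; exact Prf.allI (ih (List.map_subset _ hG))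
  | allE t _ ih => intro G' hG; exact Prf.allE t (ih hG)
  | exI t _ ih => intro G' hG; exact Prf.exI t (ih hG)
  | exE _ _ ih1 ih2 =>
    intro G' hG
    exact Prf.exE (ih1 hG) (ih2 (List.cons_subset_cons _ (List.map_subset _ hG)))
  | eqI t => intro G' _; exact Prf.eqI t
  | eqE p _ _ ih1 ih2 => intro G' hG; exact Prf.eqE p (ih1 hG) (ih2 hG)

theorem Prf.cut {n : ℕ} {G : List (Form S n)} {p q : Form S n} (h1 : Prf Ax G p)
    (h2 : Prf Ax (p :: G) q) : Prf Ax G q := Prf.impE (Prf.impI h2) h1

theorem map_wk_subst {n m : ℕ} (G : List (Form S n)) (s : Fin n → Term S m) :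
    (G.map Form.wk).map (Form.subst (lift s)) = (G.map (Form.subst s)).map Form.wk := by
  rw [List.map_map, List.map_map]
  apply List.map_congr_left
  intro p _
  exact Form.wk_subst p s

theorem Prf.subst {n : ℕ} {G : List (Form S n)} {p : Form S n} (h : Prf Ax G p) :
    ∀ {m : ℕ} (s : Fin n → Term S m), Prf Ax (G.map (Form.subst s)) (p.subst s) := by
  induction h with
  | @ax n G p h =>
    intro m s
    rw [Form.subst_subst]
    have : p.subst (fun i => (Fin.elim0 i : Term S n).subst s) = p.subst Fin.elim0 :=
      Form.subst_congr p (fun i => i.elim0)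
    rw [this]
    exact Prf.ax h
  | hyp h => intro m s; exact Prf.hyp (List.mem_map_of_mem h)
  | topI => intro m s; exact Prf.topI
  | botE _ ih => intro m s; exact Prf.botE (ih s)
  | andI _ _ ih1 ih2 => intro m s; exact Prf.andI (ih1 s) (ih2 s)
  | andE1 _ ih => intro m s; exact Prf.andE1 (ih s)
  | andE2 _ ih => intro m s; exact Prf.andE2 (ih s)
  | impI _ ih => intro m s; exact Prf.impI (ih s)
  | impE _ _ ih1 ih2 => intro m s; exact Prf.impE (ih1 s) (ih2 s)
  | supI i _ ih => intro m s; exact Prf.supI (p := fun i => _) i (ih s)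
  | supE _ _ ih1 ih2 => intro m s; exact Prf.supE (ih1 s) (fun i => ih2 i s)
  | allI _ ih =>
    intro m s
    apply Prf.allI
    rw [← map_wk_subst]
    exact ih (lift s)
  | allE t _ ih =>
    intro m s
    rw [Form.inst_subst]
    exact Prf.allE _ (ih s)
  | exI t _ ih =>
    intro m s
    apply Prf.exI (t.subst s)
    rw [← Form.inst_subst]
    exact ih s
  | exE _ _ ih1 ih2 =>
    intro m s
    apply Prf.exE (ih1 s)
    rw [← map_wk_subst, ← Form.wk_subst]
    exact ih2 (lift s)
  | eqI t => intro m s; exact Prf.eqI _
  | eqE p _ _ ih1 ih2 =>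
    intro m s
    have h2 := ih2 s
    rw [Form.inst_subst] at h2 ⊢
    exact Prf.eqE _ (ih1 s) h2

theorem Prf.close {n : ℕ} {p : Form S n} (h : Prf Ax [] p) : Prf Ax [] p.close := by
  induction n with
  | zero => exact h
  | succ n ih => exact ih (Prf.allI h)

theorem Prf.of_close {n : ℕ} (p : Form S n) : ∀ {m : ℕ} {G : List (Form S m)}
    (s : Fin n → Term S m), Prf Ax G (p.close.subst Fin.elim0) → Prf Ax G (p.subst s) := by
  induction n with
  | zero =>
    intro m G s h
    have : p.subst s = p.subst Fin.elim0 := Form.subst_congr p (fun i => i.elim0)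
    rw [this]; exact h
  | succ n ih =>
    intro m G s h
    have h1 := ih (.all p) (fun i => s i.succ) h
    have h2 := Prf.allE (s 0) h1
    rw [Form.lift_inst] at h2
    have : p.subst s = p.subst (Fin.cases (s 0) (fun i => s i.succ)) := by
      apply Form.subst_congr
      intro i
      refine Fin.cases ?_ (fun j => ?_) i <;> rfl
    rw [this]; exact h2

end Pool.Agent.Helper28.Geo
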